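import Pool.Agent.Helper7.AFT.Base
import Pool.Agent.Helper11.AF.Rigid

/-!
Bilinear forms on `H_1` which respect the Betti structure and the de Rham structure or the Hodge
filtration.
-/

namespace Pool.Agent.Helper7.AFT

open Module Pool.Agent.GPC Pool.Agent.Helper7 Pool.Agent.Helper39.AF Pool.Agent.Helper71.AF

/-- the linear map given by a bilinear form and the polarisation -/
lemma T3_exists (Y : AbVar) (γ : Y.H1 →ₗ[ℂ] Y.H1 →ₗ[ℂ] ℂ)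
    (hb : ∀ u v, Y.IsBetti u → Y.IsBetti v → ∃ c : ℚ, γ u v = 2 * Real.pi * Complex.I * c) :
    ∃ f : Y.H1 →ₗ[ℂ] Y.H1, (∀ u v, Y.pol v (f u) = γ u v) ∧ ∀ v, Y.IsBetti v → Y.IsBetti (f v) := by
  classical
  set P := pData Y with hP
  obtain ⟨Ψ, hΨ⟩ : ∃ Ψ : Y.H1 ≃ₗ[ℂ] Module.Dual ℂ Y.H1, ∀ u v, Ψ v u = P.ψ u v := by
    refine ⟨LinearMap.linearEquivOfInjective P.ψ.flip ?_ Subspace.dual_finrank_eq.symm,
      fun u v => rfl⟩
    rw [← LinearMap.ker_eq_bot, LinearMap.ker_eq_bot']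
    intro v hv
    apply ndr P
    intro u
    have := congrArg (fun g => g u) hv
    exact this
  obtain ⟨f, hf⟩ : ∃ f : Y.H1 →ₗ[ℂ] Y.H1, ∀ u v, P.ψ v (f u) = γ u v := by
    refine ⟨Ψ.symm.toLinearMap ∘ₗ γ, fun u v => ?_⟩
    rw [← hΨ v]
    simp only [LinearMap.comp_apply, LinearEquiv.coe_coe, LinearEquiv.apply_symm_apply]
  refine ⟨f, hf, fun v hv => ?_⟩
  rw [← mem_pData_Q]
  apply mem_Q_of_coord
  refine coord_mem P.bB P.ψ (algebraMap ℚ ℂ) _ Complex.two_pi_I_ne_zero (fun i j => ?_) (ndr P)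
    (f v) (fun i => ?_)
  · exact P.hψQ _ (P.basis_mem i) _ (P.basis_mem j)
  · rw [hf]
    exact hb v _ hv ((mem_pData_Q Y _).mp (P.basis_mem i))

lemma T3_alg (Y : AbVar) (γ : Y.H1 →ₗ[ℂ] Y.H1 →ₗ[ℂ] ℂ) (f : Y.H1 →ₗ[ℂ] Y.H1)
    (hf : ∀ u v, Y.pol v (f u) = γ u v)
    (hd : ∀ u v, Y.IsDeRham u → Y.IsDeRham v → IsAlgebraic ℚ (γ u v)) :
    ∀ v, Y.IsDeRham v → Y.IsDeRham (f v) := by
  classical
  intro v hv j
  set P := pData Y with hP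
  have hf' : ∀ u v, P.ψ v (f u) = γ u v := hf
  have h1 := coord_mem (Pi.basisFun ℂ (Fin Y.g ⊕ Fin Y.g)) P.ψ
    (algebraMap (algebraicClosure ℚ ℂ) ℂ) 1 one_ne_zero
    (fun i j => ?_) (ndr P) (f v) (fun j => ?_) j
  · obtain ⟨q, hq⟩ := h1
    rw [Pi.basisFun_repr] at hq
    rw [hq]
    exact mem_algebraicClosure_iff.mp q.2
  · refine ⟨⟨P.ψ (Pi.single i 1) (Pi.single j 1),
      mem_algebraicClosure_iff.mpr (P.hψalg i j)⟩, ?_⟩
    rw [Pi.basisFun_apply, Pi.basisFun_apply, one_mul]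
    rfl
  · have h2 : IsAlgebraic ℚ (γ v (Pi.single j 1)) := hd _ _ hv (single_deRham Y j)
    refine ⟨⟨_, mem_algebraicClosure_iff.mpr h2⟩, ?_⟩
    rw [hf', Pi.basisFun_apply, one_mul]
    rfl

theorem bil_fil (Y : AbVar) (γ : Y.H1 →ₗ[ℂ] Y.H1 →ₗ[ℂ] ℂ)
    (hb : ∀ u v, Y.IsBetti u → Y.IsBetti v → ∃ c : ℚ, γ u v = 2 * Real.pi * Complex.I * c)
    (hd : ∀ u v, Y.IsDeRham u → Y.IsDeRham v → IsAlgebraic ℚ (γ u v)) (u v : Y.H1)
    (hu : Y.IsFil u) (hv : Y.IsFil v) : γ u v = 0 := by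
  obtain ⟨f, hf, hfb⟩ := T3_exists Y γ hb
  have h1 := hom_fil Y Y f f.isLinear hfb (T3_alg Y γ f hf hd) u hu
  rw [← hf, AbVar.pol]
  refine Finset.sum_eq_zero fun a _ => ?_
  rw [hv a, h1 a, zero_mul, zero_mul, sub_zero]

theorem bil_deRham (Y : AbVar) (γ : Y.H1 →ₗ[ℂ] Y.H1 →ₗ[ℂ] ℂ)
    (hb : ∀ u v, Y.IsBetti u → Y.IsBetti v → ∃ c : ℚ, γ u v = 2 * Real.pi * Complex.I * c)
    (hf : ∀ u v, Y.IsFil u → Y.IsFil v → γ u v = 0) (u v : Y.H1) (hu : Y.IsDeRham u)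
    (hv : Y.IsDeRham v) : IsAlgebraic ℚ (γ u v) := by
  classical
  obtain ⟨f, hf', hfb⟩ := T3_exists Y γ hb
  have hfil : ∀ v, Y.IsFil v → Y.IsFil (f v) := by
    intro v hv a
    have h1 : Y.IsFil (Pi.single (.inr a) 1) := fun b => by simp
    have h2 := hf v (Pi.single (.inr a) 1) hv h1
    rw [← hf', AbVar.pol, Finset.sum_eq_single a] at h2
    · rw [h1 a, Pi.single_eq_same, zero_mul, mul_one, zero_sub, neg_eq_zero] at h2
      exact h2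
    · intro b _ hb
      rw [h1 b, zero_mul, zero_sub, neg_eq_zero, Pi.single_eq_of_ne, mul_zero]
      exact fun h => hb (Sum.inr_injective h)
    · intro h
      exact absurd (Finset.mem_univ a) h
  have hdr := deRham_of_hodge Y Y f f.isLinear hfb hfil u hu
  rw [← hf']
  exact polForm_alg Y v (f u) hv hdr

end Pool.Agent.Helper7.AFT
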