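import Pool.Agent.Helper7.AFT.Base
import Pool.Agent.Helper11.AF.Rigid
import Pool.Agent.Helper44.AFT.T3
import Pool.Agent.Helper30.AFT.T2
import Pool.Agent.Helper37.AFT.T5
import Pool.Agent.Helper7.AFT.T4

/-!
Grothendieck classes of degree four vanish on certain eigenvectors of a Weil structure with an
eigenspace of dimension one in `F^0`.
-/

namespace Pool.Agent.Helper7.AFT

open Module Pool.Agent.GPC Pool.Agent.Helper7 Pool.Agent.Helper39.AF

/-! ### expansions -/

section lin

variable {V : Type*} [AddCommGroup V] [Module ℂ V] {β : V → V → V → V → ℂ}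

lemma T6_sum1 (hβ : FourLin β) {ι : Type} [Fintype ι] (p : ι → ℂ) (u : ι → V) (b c e : V) :
    β (∑ i, p i • u i) b c e = ∑ i, p i * β (u i) b c e := by
  let L : V →ₗ[ℂ] ℂ := IsLinearMap.mk' (fun a => β a b c e)
    ⟨fun x y => hβ.add1 x y b c e, fun x y => hβ.smul1 x y b c e⟩
  change L (∑ i, p i • u i) = ∑ i, p i * L (u i)
  rw [map_sum]
  exact Finset.sum_congr rfl fun i _ => by rw [map_smul, smul_eq_mul]

lemma T6_sum2 (hβ : FourLin β) {ι : Type} [Fintype ι] (p : ι → ℂ) (u : ι → V) (a c e : V) :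
    β a (∑ i, p i • u i) c e = ∑ i, p i * β a (u i) c e := by
  let L : V →ₗ[ℂ] ℂ := IsLinearMap.mk' (fun b => β a b c e)
    ⟨fun x y => hβ.add2 a x y c e, fun x y => hβ.smul2 x a y c e⟩
  change L (∑ i, p i • u i) = ∑ i, p i * L (u i)
  rw [map_sum]
  exact Finset.sum_congr rfl fun i _ => by rw [map_smul, smul_eq_mul]

lemma T6_sum3 (hβ : FourLin β) {ι : Type} [Fintype ι] (p : ι → ℂ) (u : ι → V) (a b e : V) :
    β a b (∑ i, p i • u i) e = ∑ i, p i * β a b (u i) e := by
  let L : V →ₗ[ℂ] ℂ := IsLinearMap.mk' (fun c => β a b c e)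
    ⟨fun x y => hβ.add3 a b x y e, fun x y => hβ.smul3 x a b y e⟩
  change L (∑ i, p i • u i) = ∑ i, p i * L (u i)
  rw [map_sum]
  exact Finset.sum_congr rfl fun i _ => by rw [map_smul, smul_eq_mul]

lemma T6_sum4 (hβ : FourLin β) {ι : Type} [Fintype ι] (p : ι → ℂ) (u : ι → V) (a b c : V) :
    β a b c (∑ i, p i • u i) = ∑ i, p i * β a b c (u i) := by
  let L : V →ₗ[ℂ] ℂ := IsLinearMap.mk' (fun e => β a b c e)
    ⟨fun x y => hβ.add4 a b c x y, fun x y => hβ.smul4 x a b c y⟩
  change L (∑ i, p i • u i) = ∑ i, p i * L (u i)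
  rw [map_sum]
  exact Finset.sum_congr rfl fun i _ => by rw [map_smul, smul_eq_mul]

lemma T6_expand (hβ : FourLin β) {ι : Type} [Fintype ι] (p q r s : ι → ℂ) (u : ι → V) :
    ∑ a, ∑ b, ∑ c, ∑ d, (p a * q b) * (r c * s d) * β (u a) (u b) (u c) (u d) =
      β (∑ i, p i • u i) (∑ i, q i • u i) (∑ i, r i • u i) (∑ i, s i • u i) := by
  rw [T6_sum1 hβ]
  refine Finset.sum_congr rfl fun a _ => ?_
  rw [T6_sum2 hβ, Finset.mul_sum]
  refine Finset.sum_congr rfl fun b _ => ?_
  rw [T6_sum3 hβ, Finset.mul_sum, Finset.mul_sum]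
  refine Finset.sum_congr rfl fun c _ => ?_
  rw [T6_sum4 hβ, Finset.mul_sum, Finset.mul_sum, Finset.mul_sum]
  refine Finset.sum_congr rfl fun d _ => ?_
  ring

end lin

/-! ### linearity of the contraction -/

section gam

variable {X Y E : AbVar} (T : Ten X Y E) (β : X.H1 → X.H1 → X.H1 → X.H1 → ℂ)
  {ι : Type} [Fintype ι] (e e' : ι → X.H1)

lemma T6_gam_add1 (w w2 : Y.H1) (l : E.H1) (w' : Y.H1) (l' : E.H1) :
    Gam T β e e' (w + w2) l w' l' = Gam T β e e' w l w' l' + Gam T β e e' w2 l w' l' := by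
  unfold Gam
  simp only [map_add, LinearMap.add_apply, add_mul, Finset.sum_add_distrib]

lemma T6_gam_smul1 (x : ℂ) (w : Y.H1) (l : E.H1) (w' : Y.H1) (l' : E.H1) :
    Gam T β e e' (x • w) l w' l' = x * Gam T β e e' w l w' l' := by
  unfold Gam
  simp only [map_smul, LinearMap.smul_apply, smul_eq_mul, Finset.mul_sum, mul_assoc]

lemma T6_gam_add2 (w : Y.H1) (l l2 : E.H1) (w' : Y.H1) (l' : E.H1) :
    Gam T β e e' w (l + l2) w' l' = Gam T β e e' w l w' l' + Gam T β e e' w l2 w' l' := by
  unfold Gam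
  simp only [map_add, add_mul, Finset.sum_add_distrib]

lemma T6_gam_smul2 (x : ℂ) (w : Y.H1) (l : E.H1) (w' : Y.H1) (l' : E.H1) :
    Gam T β e e' w (x • l) w' l' = x * Gam T β e e' w l w' l' := by
  unfold Gam
  simp only [map_smul, smul_eq_mul, Finset.mul_sum, mul_assoc]

lemma T6_gam_add3 (w : Y.H1) (l : E.H1) (w' w2 : Y.H1) (l' : E.H1) :
    Gam T β e e' w l (w' + w2) l' = Gam T β e e' w l w' l' + Gam T β e e' w l w2 l' := by
  unfold Gam
  simp only [map_add, LinearMap.add_apply, mul_add, add_mul, Finset.sum_add_distrib]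

lemma T6_gam_smul3 (x : ℂ) (w : Y.H1) (l : E.H1) (w' : Y.H1) (l' : E.H1) :
    Gam T β e e' w l (x • w') l' = x * Gam T β e e' w l w' l' := by
  unfold Gam
  simp only [map_smul, LinearMap.smul_apply, smul_eq_mul, Finset.mul_sum]
  refine Finset.sum_congr rfl fun a _ => Finset.sum_congr rfl fun b _ =>
    Finset.sum_congr rfl fun c _ => Finset.sum_congr rfl fun d _ => ?_
  ring

lemma T6_gam_add4 (w : Y.H1) (l : E.H1) (w' : Y.H1) (l' l2 : E.H1) :
    Gam T β e e' w l w' (l' + l2) = Gam T β e e' w l w' l' + Gam T β e e' w l w' l2 := by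
  unfold Gam
  simp only [map_add, mul_add, add_mul, Finset.sum_add_distrib]

lemma T6_gam_smul4 (x : ℂ) (w : Y.H1) (l : E.H1) (w' : Y.H1) (l' : E.H1) :
    Gam T β e e' w l w' (x • l') = x * Gam T β e e' w l w' l' := by
  unfold Gam
  simp only [map_smul, smul_eq_mul, Finset.mul_sum]
  refine Finset.sum_congr rfl fun a _ => Finset.sum_congr rfl fun b _ =>
    Finset.sum_congr rfl fun c _ => Finset.sum_congr rfl fun d _ => ?_
  ring

lemma T6_gam_bil (w w' : Y.H1) : IsBil fun l l' : E.H1 => Gam T β e e' w l w' l' :=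
  ⟨fun u u' v => T6_gam_add2 T β e e' w u u' w' v, fun c u v => T6_gam_smul2 T β e e' c w u w' v,
    fun u v v' => T6_gam_add4 T β e e' w u w' v v', fun c u v => T6_gam_smul4 T β e e' c w u w' v⟩

/-- the contraction over `X` and `E` -/
noncomputable def T6_form {κ : Type} [Fintype κ] (k k' : κ → E.H1) :
    Y.H1 →ₗ[ℂ] Y.H1 →ₗ[ℂ] ℂ :=
  LinearMap.mk₂ ℂ (fun w w' => ∑ j, Gam T β e e' w (k j) w' (k' j))
    (fun w w2 w' => by
      rw [← Finset.sum_add_distrib]
      exact Finset.sum_congr rfl fun j _ => T6_gam_add1 T β e e' w w2 (k j) w' (k' j))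
    (fun x w w' => by
      rw [smul_eq_mul, Finset.mul_sum]
      exact Finset.sum_congr rfl fun j _ => T6_gam_smul1 T β e e' x w (k j) w' (k' j))
    (fun w w' w2 => by
      rw [← Finset.sum_add_distrib]
      exact Finset.sum_congr rfl fun j _ => T6_gam_add3 T β e e' w (k j) w' w2 (k' j))
    (fun x w w' => by
      rw [smul_eq_mul, Finset.mul_sum]
      exact Finset.sum_congr rfl fun j _ => T6_gam_smul3 T β e e' x w (k j) w' (k' j))

lemma T6_form_apply {κ : Type} [Fintype κ] (k k' : κ → E.H1) (w w' : Y.H1) :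
    T6_form T β e e' k k' w w' = ∑ j, Gam T β e e' w (k j) w' (k' j) := rfl

end gam

lemma T6_alg_sum {ι : Type} (s : Finset ι) (f : ι → ℂ) (h : ∀ i ∈ s, IsAlgebraic ℚ (f i)) :
    IsAlgebraic ℚ (∑ i ∈ s, f i) := by
  classical
  induction s using Finset.induction_on with
  | empty => rw [Finset.sum_empty]; exact isAlgebraic_zero
  | insert a s ha ih =>
    rw [Finset.sum_insert ha]
    exact (h a (Finset.mem_insert_self a s)).add (ih fun i hi => h i (Finset.mem_insert_of_mem hi))

/-- the form of a Grothendieck class vanishes on `F^0` -/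
lemma T6_form_fil (X : AbVar) (d : ℚ) (J : X.H1 → X.H1) (Y E : AbVar)
    (JY : Y.H1 → Y.H1) (JE : E.H1 → E.H1) (T : Ten X Y E)
    (hT : X.IsExtSquareL d J Y E JY JE T) (α : X.Class (2 * 2))
    (hα : X.IsGrothendieckClass 2 α) {ι κ : Type} [Fintype ι] [DecidableEq ι] [Fintype κ]
    [DecidableEq κ] (e : Basis ι ℂ X.H1) (e' : ι → X.H1) (he : IsDual X e e')
    (k : Basis κ ℂ E.H1) (k' : κ → E.H1) (hk : IsDual E k k') (w w' : Y.H1) (hw : Y.IsFil w)
    (hw' : Y.IsFil w') : T6_form T (four α) e e' k k' w w' = 0 := by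
  have h4 := four_lin α
  have hB : ∀ a b c e, X.IsBetti a → X.IsBetti b → X.IsBetti c → X.IsBetti e →
      ∃ q : ℚ, four α a b c e = (2 * Real.pi * Complex.I) ^ 2 * q := by
    intro a b c e ha hb hc he
    refine hα.2 ![a, b, c, e] fun r => ?_
    fin_cases r
    · exact ha
    · exact hb
    · exact hc
    · exact he
  have hD : ∀ a b c e, X.IsDeRham a → X.IsDeRham b → X.IsDeRham c → X.IsDeRham e →
      IsAlgebraic ℚ (four α a b c e) := by
    intro a b c e ha hb hc he
    refine hα.1 ![a, b, c, e] fun r => ?_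
    fin_cases r
    · exact ha
    · exact hb
    · exact hc
    · exact he
  refine bil_fil Y _ ?_ ?_ w w' hw hw'
  · intro w w' hw hw'
    obtain ⟨κ', _, _, m, m', hm, hmB, hmB'⟩ := exists_betti_dual E
    rw [T6_form_apply, sum_dual E k k' hk m m' hm (fun l l' => Gam T (four α) e e' w l w' l')
      (T6_gam_bil T (four α) e e' w w')]
    have h1 : ∀ j, ∃ q : ℚ, Gam T (four α) e e' w (m j) w' (m' j) =
        2 * Real.pi * Complex.I * q := by
      intro j
      obtain ⟨q, hq⟩ := Gam_betti T h4 hT.betti hB e e' he w (m j) w'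
        ((2 * Real.pi * Complex.I) • m' j) hw (hmB j) hw' (hmB' j)
      refine ⟨q, ?_⟩
      rw [T6_gam_smul4] at hq
      have h2 := Complex.two_pi_I_ne_zero
      refine mul_left_cancel₀ h2 ?_
      rw [hq]
      ring
    choose q hq using h1
    refine ⟨∑ j, q j, ?_⟩
    rw [Finset.sum_congr rfl fun j _ => hq j, ← Finset.mul_sum]
    push_cast
    rfl
  · intro w w' hw hw'
    obtain ⟨κ', _, _, m, m', hm, hmD, hmD'⟩ := exists_deRham_dual E
    rw [T6_form_apply, sum_dual E k k' hk m m' hm (fun l l' => Gam T (four α) e e' w l w' l')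
      (T6_gam_bil T (four α) e e' w w')]
    exact T6_alg_sum _ _ fun j _ => Gam_deRham T h4 hT.deRham hD e e' he w (m j) w' (m' j)
      hw (hmD j) hw' (hmD' j)

lemma T6_pol_swap (X : AbVar) (u v : X.H1) : X.pol u v = - X.pol v u := by
  unfold AbVar.pol
  rw [← Finset.sum_neg_distrib]
  exact Finset.sum_congr rfl fun a _ => by ring

/-- polarisation of vectors of `F^0` -/
lemma T6_pol_fil (X : AbVar) (u v : X.H1) (hu : X.IsFil u) (hv : X.IsFil v) : X.pol u v = 0 := by
  unfold AbVar.pol
  refine Finset.sum_eq_zero fun a _ => ?_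
  rw [hu a, hv a, zero_mul, zero_mul, sub_zero]

/-- polarisation in the first variable as a linear map -/
lemma T6_pol_sum1 (X : AbVar) {ι : Type} [Fintype ι] (p : ι → ℂ) (u : ι → X.H1) (v : X.H1) :
    X.pol (∑ i, p i • u i) v = ∑ i, p i * X.pol (u i) v := by
  have h : ∀ a, X.pol a v = (pData X).ψ a v := fun a => rfl
  rw [h, map_sum, LinearMap.sum_apply]
  exact Finset.sum_congr rfl fun i _ => by rw [map_smul, LinearMap.smul_apply, smul_eq_mul, h]

lemma T6_pol_sum2 (X : AbVar) {ι : Type} [Fintype ι] (p : ι → ℂ) (u : ι → X.H1) (v : X.H1) :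
    X.pol v (∑ i, p i • u i) = ∑ i, p i * X.pol v (u i) := by
  rw [T6_pol_swap, T6_pol_sum1, ← Finset.sum_neg_distrib]
  exact Finset.sum_congr rfl fun i _ => by rw [T6_pol_swap X v]; ring

section frame

variable {X : AbVar} {J : X.H1 → X.H1} {z : ℂ} (F : Frame X J z)

/-- the dual family -/
noncomputable def T6_dual (i : Fin 4 × Bool) : X.H1 :=
  if i.2 = true then - F.b (i.1, false) else F.b (i.1, true)

lemma T6_isDual : IsDual X F.b (T6_dual F) := by
  rintro ⟨i, ε⟩ ⟨j, ε'⟩
  cases ε <;> cases ε'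
  · change X.pol (F.b (i, false)) (F.b (j, true)) = _
    rw [F.ft]
    simp
  · change X.pol (F.b (i, false)) (- F.b (j, false)) = _
    rw [T6_pol_swap]
    have h := F.ff j i
    have h2 : X.pol (- F.b (j, false)) (F.b (i, false)) = - X.pol (F.b (j, false)) (F.b (i, false)) := by
      have := T6_pol_sum1 X (fun _ : Unit => (-1 : ℂ)) (fun _ => F.b (j, false)) (F.b (i, false))
      simpa using this
    rw [h2, h]
    simp
  · change X.pol (F.b (i, true)) (F.b (j, true)) = _
    rw [F.tt]
    simp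
  · change X.pol (F.b (i, true)) (- F.b (j, false)) = _
    rw [T6_pol_swap]
    have h2 : X.pol (- F.b (j, false)) (F.b (i, true)) = - X.pol (F.b (j, false)) (F.b (i, true)) := by
      have := T6_pol_sum1 X (fun _ : Unit => (-1 : ℂ)) (fun _ => F.b (j, false)) (F.b (i, true))
      simpa using this
    rw [h2, F.ft, neg_neg]
    simp [eq_comm]

/-- coordinates of an eigenvector -/
lemma T6_expand_f (hlin : IsLinearMap ℂ J) (hz0 : z ≠ 0) {v : X.H1} (hv : J v = z • v) :
    v = ∑ i, F.b.repr v (i, false) • F.b (i, false) := by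
  have h1 : ∀ i, F.b.repr v (i, true) = 0 := by
    intro i
    have h2 : ∀ u, F.b.repr (J u) (i, true) = -z * F.b.repr u (i, true) := by
      intro u
      let A : X.H1 →ₗ[ℂ] ℂ := F.b.coord (i, true) ∘ₗ hlin.mk' J
      let B : X.H1 →ₗ[ℂ] ℂ := (-z) • F.b.coord (i, true)
      have h3 : A = B := by
        refine F.b.ext fun j => ?_
        obtain ⟨j, ε⟩ := j
        change F.b.repr (J (F.b (j, ε))) (i, true) = -z * F.b.repr (F.b (j, ε)) (i, true)
        cases ε
        · rw [F.Jf, map_smul, Finsupp.smul_apply, Basis.repr_self,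
            Finsupp.single_eq_of_ne (by simp)]
          simp
        · rw [F.Jt, map_smul, Finsupp.smul_apply, smul_eq_mul]
      exact LinearMap.congr_fun h3 u
    have h4 := h2 v
    rw [hv, map_smul, Finsupp.smul_apply, smul_eq_mul] at h4
    have h5 : (2 * z) * F.b.repr v (i, true) = 0 := by linear_combination h4
    exact (mul_eq_zero.mp h5).resolve_left (mul_ne_zero two_ne_zero hz0)
  conv_lhs => rw [← F.b.sum_repr v, Fintype.sum_prod_type]
  refine Finset.sum_congr rfl fun i _ => ?_
  rw [Fintype.sum_bool, h1, zero_smul, zero_add]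

lemma T6_expand_t (hlin : IsLinearMap ℂ J) (hz0 : z ≠ 0) {v : X.H1} (hv : J v = (-z) • v) :
    v = ∑ i, F.b.repr v (i, true) • F.b (i, true) := by
  have h1 : ∀ i, F.b.repr v (i, false) = 0 := by
    intro i
    have h2 : ∀ u, F.b.repr (J u) (i, false) = z * F.b.repr u (i, false) := by
      intro u
      let A : X.H1 →ₗ[ℂ] ℂ := F.b.coord (i, false) ∘ₗ hlin.mk' J
      let B : X.H1 →ₗ[ℂ] ℂ := z • F.b.coord (i, false)
      have h3 : A = B := by
        refine F.b.ext fun j => ?_
        obtain ⟨j, ε⟩ := j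
        change F.b.repr (J (F.b (j, ε))) (i, false) = z * F.b.repr (F.b (j, ε)) (i, false)
        cases ε
        · rw [F.Jf, map_smul, Finsupp.smul_apply, smul_eq_mul]
        · rw [F.Jt, map_smul, Finsupp.smul_apply, Basis.repr_self,
            Finsupp.single_eq_of_ne (by simp)]
          simp
      exact LinearMap.congr_fun h3 u
    have h4 := h2 v
    rw [hv, map_smul, Finsupp.smul_apply, smul_eq_mul] at h4
    have h5 : (2 * z) * F.b.repr v (i, false) = 0 := by linear_combination -h4
    exact (mul_eq_zero.mp h5).resolve_left (mul_ne_zero two_ne_zero hz0)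
  conv_lhs => rw [← F.b.sum_repr v, Fintype.sum_prod_type]
  refine Finset.sum_congr rfl fun i _ => ?_
  rw [Fintype.sum_bool, h1, zero_smul, add_zero]

end frame

/-! ### module T6 : Grothendieck classes of type (2,2) -/

theorem star (X : AbVar) (hX : X.g = 4) (d : ℚ) (J : X.H1 → X.H1) (hJ : X.IsWeilStructure d J)
    (z : ℂ) (hz : z ^ 2 = -(d : ℂ)) (h1 : finrank ℂ (X.filEigen J z) = 1) (Y E : AbVar)
    (JY : Y.H1 → Y.H1) (JE : E.H1 → E.H1) (T : Ten X Y E)
    (hT : X.IsExtSquareL d J Y E JY JE T)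
    (hz' : ∀ l, E.IsFil l → JE l = z • l) (α : X.Class (2 * 2)) (hα : X.IsGrothendieckClass 2 α)
    (l v h h' : X.H1) (hl : J l = z • l) (hlf : X.IsFil l) (hv : J v = z • v)
    (hh : J h = (-z) • h) (hhf : X.IsFil h) (hh' : J h' = (-z) • h') (hhf' : X.IsFil h') :
    four α l v h h' = 0 := by
  classical
  obtain ⟨F⟩ := exists_frame X hX d J hJ z hz h1
  obtain ⟨G⟩ := exists_frameE E hT.dim.2 d hJ.1 JE hT.endo.2 hT.sq z hz hz'
  have hlin : IsLinearMap ℂ J := hJ.2.1.linear
  have hz0 : z ≠ 0 := by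
    rintro rfl
    have hd : (d : ℂ) = 0 := by linear_combination hz
    exact hJ.1.ne' (by exact_mod_cast hd)
  have h4 := four_lin α
  -- coordinates
  set xl : Fin 4 → ℂ := fun i => F.b.repr l (i, false) with hxl
  set xv : Fin 4 → ℂ := fun i => F.b.repr v (i, false) with hxv
  set xh : Fin 4 → ℂ := fun i => F.b.repr h (i, true) with hxh
  set xh' : Fin 4 → ℂ := fun i => F.b.repr h' (i, true) with hxh'
  have el : l = ∑ i, xl i • F.b (i, false) := T6_expand_f F hlin hz0 hl
  have ev : v = ∑ i, xv i • F.b (i, false) := T6_expand_f F hlin hz0 hv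
  have eh : h = ∑ i, xh i • F.b (i, true) := T6_expand_t F hlin hz0 hh
  have eh' : h' = ∑ i, xh' i • F.b (i, true) := T6_expand_t F hlin hz0 hh'
  have xl0 : ∀ i, i ≠ 0 → xl i = 0 := by
    intro i hi
    have h2 := T6_pol_fil X l (F.b (i, true)) hlf (F.fil_t i hi)
    rw [el, T6_pol_sum1, Finset.sum_eq_single i] at h2
    · rw [F.ft, if_pos rfl, mul_one] at h2
      exact h2
    · intro j _ hj
      rw [F.ft, if_neg hj, mul_zero]
    · intro hn
      exact absurd (Finset.mem_univ i) hn
  have xh0 : ∀ u : X.H1, X.IsFil u → ∀ x : Fin 4 → ℂ, u = ∑ i, x i • F.b (i, true) → x 0 = 0 := by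
    intro u hu x hx
    have h2 := T6_pol_fil X (F.b (0, false)) u F.fil_f hu
    rw [hx, T6_pol_sum2, Finset.sum_eq_single 0] at h2
    · rw [F.ft, if_pos rfl, mul_one] at h2
      exact h2
    · intro j _ hj
      rw [F.ft, if_neg (Ne.symm hj), mul_zero]
    · intro hn
      exact absurd (Finset.mem_univ 0) hn
  have xh00 : xh 0 = 0 := xh0 h hhf xh eh
  have xh00' : xh' 0 = 0 := xh0 h' hhf' xh' eh'
  -- the two vectors
  obtain ⟨w, hw⟩ := mat_surj hJ hT hz F G
    (fun ε i j => if ε = true then 0 else xh i * xh' j - xh j * xh' i) (by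
      intro ε i j
      cases ε
      · simp only [Bool.false_eq_true, if_false]; ring
      · simp)
  obtain ⟨w', hw'⟩ := mat_surj hJ hT hz F G
    (fun ε i j => if ε = true then xl i * xv j - xl j * xv i else 0) (by
      intro ε i j
      cases ε
      · simp
      · simp only [if_true]; ring)
  have hwf : Y.IsFil w := by
    rw [fil_iff hJ hT hz F G]
    constructor
    · intro j
      rw [hw]
      simp only [Bool.false_eq_true, if_false, xh00, xh00']
      ring
    · intro i j _ _
      rw [hw]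
      simp
  have hwf' : Y.IsFil w' := by
    rw [fil_iff hJ hT hz F G]
    constructor
    · intro j
      rw [hw']
      simp
    · intro i j hi hj
      rw [hw']
      simp only [if_true, xl0 i hi, xl0 j hj]
      ring
  -- values of `T`
  have hTw : ∀ u u' ε, T u u' w (G.g ε) = if ε = true then 0 else
      (∑ i, F.b.repr u (i, false) * xh i) * (∑ i, F.b.repr u' (i, false) * xh' i) -
        (∑ i, F.b.repr u (i, false) * xh' i) * (∑ i, F.b.repr u' (i, false) * xh i) := by
    intro u u' ε
    rw [T_eq hJ hT hz F G, Fintype.sum_bool]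
    simp only [hw, Basis.repr_self]
    cases ε
    · simp only [Bool.false_eq_true, if_false, if_true, mul_zero, Finset.sum_const_zero, zero_add,
        Finsupp.single_eq_same, mul_one]
      rw [Finset.sum_mul_sum, Finset.sum_mul_sum, ← Finset.sum_sub_distrib]
      refine Finset.sum_congr rfl fun i _ => ?_
      rw [← Finset.sum_sub_distrib]
      exact Finset.sum_congr rfl fun j _ => by ring
    · simp
  have hTw' : ∀ u u' ε, T u u' w' (G.g ε) = if ε = true then
      (∑ i, F.b.repr u (i, true) * xl i) * (∑ i, F.b.repr u' (i, true) * xv i) -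
        (∑ i, F.b.repr u (i, true) * xv i) * (∑ i, F.b.repr u' (i, true) * xl i) else 0 := by
    intro u u' ε
    rw [T_eq hJ hT hz F G, Fintype.sum_bool]
    simp only [hw', Basis.repr_self]
    cases ε
    · simp
    · simp only [Bool.false_eq_true, if_false, if_true, mul_zero, Finset.sum_const_zero, add_zero,
        Finsupp.single_eq_same, mul_one]
      rw [Finset.sum_mul_sum, Finset.sum_mul_sum, ← Finset.sum_sub_distrib]
      refine Finset.sum_congr rfl fun i _ => ?_
      rw [← Finset.sum_sub_distrib]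
      exact Finset.sum_congr rfl fun j _ => by ring
  -- the dual family of `E`
  have hpE : E.pol (G.g false) (G.g true) = 1 := G.ft
  let k' : Bool → E.H1 := fun ε => if ε = true then (-1 : ℂ) • G.g false else G.g true
  have hk' : IsDual E G.g k' := by
    have hs : ∀ u, E.pol u u = 0 := by
      intro u
      unfold AbVar.pol
      exact Finset.sum_eq_zero fun a _ => by ring
    have hn : ∀ u v, E.pol u ((-1 : ℂ) • v) = - E.pol u v := by
      intro u v
      have := T6_pol_sum2 E (fun _ : Unit => (-1 : ℂ)) (fun _ => v) u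
      simpa using this
    intro i j
    cases i <;> cases j
    · exact hpE
    · change E.pol (G.g false) ((-1 : ℂ) • G.g false) = _
      rw [hn, hs]; simp
    · change E.pol (G.g true) (G.g true) = _
      rw [hs]; simp
    · change E.pol (G.g true) ((-1 : ℂ) • G.g false) = _
      rw [hn, T6_pol_swap, hpE]; simp
  have key := T6_form_fil X d J Y E JY JE T hT α hα F.b (T6_dual F) (T6_isDual F) G.g k' hk' w w'
    hwf hwf'
  rw [T6_form_apply, Fintype.sum_bool] at key
  have k1 : Gam T (four α) F.b (T6_dual F) w (G.g true) w' (k' true) = 0 := by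
    unfold Gam
    refine Finset.sum_eq_zero fun a _ => Finset.sum_eq_zero fun b _ => Finset.sum_eq_zero fun c _ =>
      Finset.sum_eq_zero fun e _ => ?_
    rw [hTw, if_pos rfl, zero_mul, zero_mul]
  rw [k1, zero_add] at key
  -- expansion
  have hp : ∀ (x : Fin 4 → ℂ), ∑ a, (∑ i, F.b.repr (F.b a) (i, false) * x i) • T6_dual F a =
      ∑ i, x i • F.b (i, true) := by
    intro x
    rw [Fintype.sum_prod_type]
    refine Finset.sum_congr rfl fun i _ => ?_
    rw [Fintype.sum_bool]
    have e1 : ∑ j, F.b.repr (F.b (i, true)) (j, false) * x j = 0 := by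
      refine Finset.sum_eq_zero fun j _ => ?_
      rw [Basis.repr_self, Finsupp.single_eq_of_ne (by simp), zero_mul]
    have e2 : ∑ j, F.b.repr (F.b (i, false)) (j, false) * x j = x i := by
      rw [Finset.sum_eq_single i]
      · rw [Basis.repr_self, Finsupp.single_eq_same, one_mul]
      · intro j _ hj
        rw [Basis.repr_self, Finsupp.single_eq_of_ne (by simpa using hj), zero_mul]
      · intro hn
        exact absurd (Finset.mem_univ i) hn
    rw [e1, e2, zero_smul, zero_add]
    rfl
  have hq : ∀ (x : Fin 4 → ℂ), ∑ a, (∑ i, F.b.repr (F.b a) (i, true) * x i) • T6_dual F a =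
      (-1 : ℂ) • ∑ i, x i • F.b (i, false) := by
    intro x
    rw [Fintype.sum_prod_type, Finset.smul_sum]
    refine Finset.sum_congr rfl fun i _ => ?_
    rw [Fintype.sum_bool]
    have e1 : ∑ j, F.b.repr (F.b (i, false)) (j, true) * x j = 0 := by
      refine Finset.sum_eq_zero fun j _ => ?_
      rw [Basis.repr_self, Finsupp.single_eq_of_ne (by simp), zero_mul]
    have e2 : ∑ j, F.b.repr (F.b (i, true)) (j, true) * x j = x i := by
      rw [Finset.sum_eq_single i]
      · rw [Basis.repr_self, Finsupp.single_eq_same, one_mul]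
      · intro j _ hj
        rw [Basis.repr_self, Finsupp.single_eq_of_ne (by simpa using hj), zero_mul]
      · intro hn
        exact absurd (Finset.mem_univ i) hn
    rw [e1, e2, zero_smul, add_zero]
    change x i • (- F.b (i, false)) = (-1 : ℂ) • (x i • F.b (i, false))
    rw [smul_neg, neg_smul, one_smul]
  have k2 : Gam T (four α) F.b (T6_dual F) w (G.g false) w' (k' false) =
      four α h h' ((-1 : ℂ) • l) ((-1 : ℂ) • v) - four α h h' ((-1 : ℂ) • v) ((-1 : ℂ) • l) -
      (four α h' h ((-1 : ℂ) • l) ((-1 : ℂ) • v) - four α h' h ((-1 : ℂ) • v) ((-1 : ℂ) • l)) := by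
    rw [eh, eh', el, ev, ← hp xh, ← hp xh', ← hq xl, ← hq xv, ← T6_expand h4, ← T6_expand h4,
      ← T6_expand h4, ← T6_expand h4]
    unfold Gam
    simp only [← Finset.sum_sub_distrib]
    refine Finset.sum_congr rfl fun a _ => Finset.sum_congr rfl fun b _ =>
      Finset.sum_congr rfl fun c _ => Finset.sum_congr rfl fun e _ => ?_
    have e1 := hTw (F.b a) (F.b b) false
    have e2 := hTw' (F.b c) (F.b e) true
    rw [if_neg (by simp)] at e1
    rw [if_pos rfl] at e2
    have e3 : k' false = G.g true := rfl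
    rw [e3, e1, e2]
    ring
  rw [k2] at key
  -- alternation
  have s12 : ∀ a b c e, four α b a c e = - four α a b c e := by
    intro a b c e
    have := α.map_swap ![a, b, c, e] (show (0 : Fin (2 * 2)) ≠ 1 by decide)
    have h2 : (![a, b, c, e] : Fin (2 * 2) → X.H1) ∘ (Equiv.swap 0 1) = ![b, a, c, e] := by
      funext j; fin_cases j <;> rfl
    rw [h2] at this
    exact this
  have s34 : ∀ a b c e, four α a b e c = - four α a b c e := by
    intro a b c e
    have := α.map_swap ![a, b, c, e] (show (2 : Fin (2 * 2)) ≠ 3 by decide)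
    have h2 : (![a, b, c, e] : Fin (2 * 2) → X.H1) ∘ (Equiv.swap 2 3) = ![a, b, e, c] := by
      funext j; fin_cases j <;> rfl
    rw [h2] at this
    exact this
  have s23 : ∀ a b c e, four α a c b e = - four α a b c e := by
    intro a b c e
    have := α.map_swap ![a, b, c, e] (show (1 : Fin (2 * 2)) ≠ 2 by decide)
    have h2 : (![a, b, c, e] : Fin (2 * 2) → X.H1) ∘ (Equiv.swap 1 2) = ![a, c, b, e] := by
      funext j; fin_cases j <;> rfl
    rw [h2] at this
    exact this
  simp only [h4.smul3, h4.smul4] at key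
  rw [s12 h h' l v, s12 h h' v l, s34 h h' l v] at key
  have k3 : four α h h' l v = 0 := by linear_combination key / 4
  have k4 : four α l v h h' = four α h h' l v := by
    rw [s23 l h v h', s12 h l v h', s34 h l h' v, s23 h h' l v]
    ring
  rw [k4, k3]

end Pool.Agent.Helper7.AFT
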